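import Pool.Agent.H50.KTH.Alg

/-!
# KTH, AIL: entropy of the family of the lines 2 given `Y`
-/

set_option autoImplicit false

namespace Pool.KTH.A50

open Finset Real
open Pool.Agent.H49.Ent Pool.Agent.H32.Dense

variable {d : ℕ}

/-- The three entropies. -/
theorem ail_aux {J : ℕ} (F : Cf d J) :
    CH F.q (fun w => (F.v₂ w, F.Y w)) F.Z = F.FI.L + F.yh ∧
    CH F.q F.v12 F.Z + CH F.q F.Y (fun w => (F.v12 w, (F.s w, F.ta w), F.Z w)) ≤
      F.FI.L + F.yh + F.et := by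
  have h1 : CH F.q (fun w => (F.v₂ w, F.Y w)) F.Z = F.FI.L + F.yh := by
    rw [CH_chain F.hq, add_comm]
    rfl
  refine ⟨h1, ?_⟩
  have h2 : CH F.q (fun w => (F.v₁ w, (F.v₂ w, F.Y w))) F.Z = F.FI.L + F.yh + F.et := by
    rw [CH_chain F.hq, h1]
    have h3 : CH F.q F.v₁ (fun w => ((F.v₂ w, F.Y w), F.Z w)) = F.et := by
      refine CH_congr F.hq ?_ ?_ ?_ ?_ <;>
      · intro ω ω' _ _ h
        try simp only [Prod.mk.injEq] at h ⊢
        tauto
    rw [h3]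
  have h4 : CH F.q (fun w => (F.Y w, F.v12 w)) F.Z =
      CH F.q (fun w => (F.v₁ w, (F.v₂ w, F.Y w))) F.Z := by
    refine CH_congr F.hq ?_ ?_ ?_ ?_ <;>
    · intro ω ω' _ _ h
      try simp only [Cf.v12, Prod.mk.injEq] at h ⊢
      tauto
  have h5 := CH_chain F.hq F.Y F.v12 F.Z
  have h6 : CH F.q F.Y (fun w => (F.v12 w, (F.s w, F.ta w), F.Z w)) ≤
      CH F.q F.Y (fun w => (F.v12 w, F.Z w)) := by
    refine CH_mono_cond F.hq ?_
    intro ω ω' _ _ h
    try simp only [Prod.mk.injEq] at h ⊢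
    tauto
  linarith

end Pool.KTH.A50

namespace Pool.KTH

open Finset Real
open Pool.Agent.H49.Ent Pool.Agent.H32.Dense
open Pool.KTH.A50

/-- AIL: entropy of the family of the lines 2 given `Y`, and `I(v₂; Y)`. -/
theorem ail (hT : TLNStmt) (hP : PALStmt) : AILStmt := by
  intro d hd
  have h1 := Es.add (hT d hd).2 (Es.of_ev (hP d hd).2)
  refine ⟨Es.mono h1 ?_, Es.mono h1 ?_⟩
  · intro J F L sb e h
    obtain ⟨h2, h3⟩ := ail_aux F
    show 3 * L + 6 * lm J - 2 * sb - F.qs - F.y01 - F.y12 - F.yh - F.et - F.FI.L ≤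
      3 * L + 4 * lm J - 2 * sb - F.qs - F.y01 - CH F.q F.v12 F.Z + (2 * lm J - F.y12 -
        CH F.q F.Y (fun w => (F.v12 w, (F.s w, F.ta w), F.Z w)))
    linarith
  · intro J F L sb e h
    obtain ⟨h2, h3⟩ := ail_aux F
    have h4 := h.l2
    show F.iy - (F.yh - 2 * L - 6 * lm J + 2 * sb + F.qs + F.y01 + F.y12 + F.et) ≤
      3 * L + 4 * lm J - 2 * sb - F.qs - F.y01 - CH F.q F.v12 F.Z + (2 * lm J - F.y12 -
        CH F.q F.Y (fun w => (F.v12 w, (F.s w, F.ta w), F.Z w)))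
    have h5 : F.iy = CH F.q F.v₂ F.Z + F.yh - CH F.q (fun w => (F.v₂ w, F.Y w)) F.Z := rfl
    linarith

end Pool.KTH
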