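import Pool.Agent.H50.KTH.Alg

/-!
# KTH, AIS: slices of the family of the lines 2 given `Y`
-/

set_option autoImplicit false

namespace Pool.KTH

open Finset Real
open Pool.Agent.H49.Ent Pool.Agent.H32.Dense
open Pool.KTH.A50

/-- AIS: slices of the family of the lines 2 given `Y`. -/
theorem ais (hD : DRVStmt) (hC : CHDStmt) (hU : UPTStmt) : AISStmt := by
  intro d hd
  obtain ⟨C₁, hC₁, h1⟩ := hD d
  obtain ⟨C₂, hC₂, h2⟩ := (hC d).2
  obtain ⟨C₃, hC₃, h3⟩ := (hU d).2.2.2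
  refine ⟨C₁ + C₂ + C₃, by positivity, fun J F L sb e h => ?_⟩
  have e1 : lm J - C₁ * er J e ≤ CH F.q F.ta (fun w => (F.v₂ w, (F.Y w, F.Z w))) :=
    (h1 J F L sb e h).2
  have e2 : CH F.q F.Y (fun w => ((F.A₂ w, F.O w), F.TY w, F.Z w)) ≤ C₂ * er J e :=
    h2 J F L sb e h
  have e3 : CH F.q F.TY F.Z - lm J ≤ C₃ * er J e := h3 J F L sb e h
  -- the slices
  have e4 : CH F.q (fun w => (F.A₂ w, F.Y w)) F.Z = F.yh + CH F.q F.A₂ (fun w => (F.Y w, F.Z w)) :=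
    CH_chain F.hq _ _ _
  have e5 : F.FI.S + CH F.q F.ta (fun w => (F.Y w, F.Z w)) =
      CH F.q F.A₂ (fun w => (F.Y w, F.Z w)) := by
    have h4 : F.FI.S = CH F.q (fun w => rd (pos (2 ^ J) (F.u₂ w) (F.v₂ w) (F.ta w)))
        (fun w => (F.ta w, (F.Y w, F.Z w))) := by
      refine CH_congr F.hq ?_ ?_ ?_ ?_ <;>
      · intro ω ω' _ _ h
        try simp only [Cf.FI, Prod.mk.injEq] at h ⊢
        tauto
    rw [h4, add_comm, ← CH_chain F.hq]
    refine CH_congr F.hq ?_ ?_ ?_ ?_ <;>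
    · intro ω ω' _ _ h
      try simp only [Cf.A₂, pp, Prod.mk.injEq] at h ⊢
      tauto
  have e6 : CH F.q F.ta (fun w => (F.v₂ w, (F.Y w, F.Z w))) ≤
      CH F.q F.ta (fun w => (F.Y w, F.Z w)) := by
    refine CH_mono_cond F.hq ?_
    intro ω ω' _ _ h
    exact (Prod.ext_iff.mp h).2
  -- `H(A₂, O, Y)`
  have e7 : CH F.q (fun w => (F.O w, (F.A₂ w, F.Y w))) F.Z =
      CH F.q (fun w => (F.A₂ w, F.Y w)) F.Z + F.xi := by
    rw [CH_chain F.hq]
    have h4 : CH F.q F.O (fun w => ((F.A₂ w, F.Y w), F.Z w)) = F.xi := by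
      refine CH_congr F.hq ?_ ?_ ?_ ?_ <;>
      · intro ω ω' _ _ h
        try simp only [Prod.mk.injEq] at h ⊢
        tauto
    rw [h4]
  have e8 : CH F.q (fun w => (F.O w, (F.A₂ w, F.Y w))) F.Z =
      CH F.q (fun w => (F.Y w, (F.A₂ w, F.O w))) F.Z := by
    refine CH_congr F.hq ?_ ?_ ?_ ?_ <;>
    · intro ω ω' _ _ h
      try simp only [Prod.mk.injEq] at h ⊢
      tauto
  have e9 : CH F.q (fun w => (F.Y w, (F.A₂ w, F.O w))) F.Z =
      CH F.q (fun w => (F.A₂ w, F.O w)) F.Z + CH F.q F.Y (fun w => ((F.A₂ w, F.O w), F.Z w)) :=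
    CH_chain F.hq _ _ _
  have e10 : CH F.q (fun w => (F.A₂ w, F.O w)) F.Z ≤ CH F.q F.A₂ F.Z + F.xh :=
    CH_subadd F.hq _ _ _
  have e11 : CH F.q F.Y (fun w => ((F.A₂ w, F.O w), F.Z w)) ≤
      CH F.q F.TY F.Z + CH F.q F.Y (fun w => ((F.A₂ w, F.O w), F.TY w, F.Z w)) := by
    have h4 := CH_le_add F.hq F.Y F.TY (fun w => ((F.A₂ w, F.O w), F.Z w))
    have h5 : CH F.q F.TY (fun w => ((F.A₂ w, F.O w), F.Z w)) ≤ CH F.q F.TY F.Z := by
      refine CH_mono_cond F.hq ?_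
      intro ω ω' _ _ h
      exact (Prod.ext_iff.mp h).2
    have h6 : CH F.q F.Y (fun w => (F.TY w, ((F.A₂ w, F.O w), F.Z w))) =
        CH F.q F.Y (fun w => ((F.A₂ w, F.O w), F.TY w, F.Z w)) := by
      refine CH_congr F.hq ?_ ?_ ?_ ?_ <;>
      · intro ω ω' _ _ h
        try simp only [Prod.mk.injEq] at h ⊢
        tauto
    linarith
  have e12 := h.sA₂
  show F.FI.S - (sb + F.xh - F.yh - F.xi) ≤ (C₁ + C₂ + C₃) * er J e
  linarith

end Pool.KTH
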