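import Pool.Agent.H50.KTH.Alg

/-!
# KTH, LVB: level two, for spread families
-/

set_option autoImplicit false

namespace Pool.KTH.A50

open Finset Real
open Pool.Agent.H49.Ent Pool.Agent.H32.Dense
open Pool.Agent.H24.KTH (dsv lvv lev cap Yf kp LevOne LevPlus LevZero)

variable {d : ℕ}

theorem Es.both {f g : ∀ J : ℕ, Cf d J → ℝ → ℝ → ℝ} (h : Es d f) (h' : Es d g) :
    Es d (fun J F L sb => max (f J F L sb) (g J F L sb)) := by
  intro ε hε
  obtain ⟨θ, hθ, J₀, h1⟩ := h ε hε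
  obtain ⟨θ', hθ', J₀', h2⟩ := h' ε hε
  refine ⟨min θ θ', lt_min hθ hθ', max J₀ J₀', fun J hJ F L sb e he h => ?_⟩
  have hl := lm_nonneg J
  exact max_le (h1 J (le_trans (le_max_left _ _) hJ) F L sb e
    (he.trans (mul_le_mul_of_nonneg_right (min_le_left _ _) hl)) h)
    (h2 J (le_trans (le_max_right _ _) hJ) F L sb e
      (he.trans (mul_le_mul_of_nonneg_right (min_le_right _ _) hl)) h)

theorem one_le_er {J : ℕ} {e : ℝ} (he : 0 ≤ e) : 1 ≤ er J e := by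
  have h1 : 0 ≤ Real.log ((J : ℝ) + 2) := Real.log_nonneg (by
    have : (0 : ℝ) ≤ J := Nat.cast_nonneg _
    linarith)
  unfold er
  linarith

/-- Level one plus and spread for one derived family. -/
theorem lp_spr {J N : ℕ} (G : Fm d J) {a μ τ C e ε' θ : ℝ} (hT : G.Tm e) (he : e ≤ θ * J)
    (hS : G.Spr N μ (τ + C))
    (hLP : Kf (2 ^ J) G.p (bv G.Z G.v) G.τ ≤ θ * J → ∃ w : G.Ω → ℕ, (∀ ω, w ω ≤ N) ∧
      CH G.p G.v G.Z ≤ a * Sf (2 ^ J) G.p G.Z G.v G.u G.τ -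
      kp a * ((1 - Ex G.p (fun ω => (w ω : ℝ)) / N) * (J * Real.log 2)) -
      (a - 1) * CH G.p (fun ω => cap J (lev J N (w ω)) (G.v ω)) (fun ω => (w ω, G.Z ω)) + ε' * J)
    (hN : 0 < N) :
    ∃ x h : ℝ, x ≤ 1 ∧ 0 ≤ h ∧ G.L ≤ a * G.S - kp a * ((1 - x) * lm J) - (a - 1) * h + ε' * J ∧
      μ * (x * lm J) - (τ + C) ≤ h := by
  have hK : Kf (2 ^ J) G.p (bv G.Z G.v) G.τ ≤ θ * J := by
    have h1 : Kf (2 ^ J) G.p (bv G.Z G.v) G.τ = Real.log ((2 ^ J : ℕ) : ℝ) -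
        CH G.p G.τ (fun ω => (G.v ω, G.Z ω)) := rfl
    have h2 : Real.log ((2 ^ J : ℕ) : ℝ) = lm J := by
      push_cast
      rw [Real.log_pow]
      rfl
    have h3 : lm J - e ≤ CH G.p G.τ (fun ω => (G.v ω, G.Z ω)) := hT
    rw [h1, h2]
    linarith
  obtain ⟨w, hw, h1⟩ := hLP hK
  refine ⟨Ex G.p (fun ω => (w ω : ℝ)) / N, CH G.p (fun ω => cap J (lev J N (w ω)) (G.v ω))
    (fun ω => (w ω, G.Z ω)), ?_, CH_nonneg G.isFam.hp _ _, h1, ?_⟩
  · rw [div_le_one (by exact_mod_cast hN)]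
    have h2 := Ex_mono G.isFam.hp (f := fun ω => (w ω : ℝ)) (g := fun _ => (N : ℝ))
      fun ω _ => by exact_mod_cast hw ω
    rwa [Ex_const G.isFam.h1] at h2
  · exact hS G.Ω G.p (fun ω => ω) w G.isFam.hp (Marg.id G.p) hw

end Pool.KTH.A50

namespace Pool.KTH

open Finset Real
open Pool.Agent.H49.Ent Pool.Agent.H32.Dense
open Pool.Agent.H24.KTH (dsv lvv lev cap Yf kp LevOne LevPlus LevZero)
open Pool.KTH.A50

/-- LVB: level two, for spread families. -/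
theorem lvb (hCFG : CFGStmt) (hDRV : DRVStmt) (hSPL : SPLStmt) (hSPI : SPIStmt) (hARB : ARBStmt)
    (hALL : ALLStmt) (hALS : ALSStmt) (hAIL : AILStmt) (hAIS : AISStmt) (hAXI : AXIStmt)
    (hAYY : AYYStmt) (hACO : ACOStmt) (hETA : ETAStmt) (hTRV : TRVStmt) : LVBStmt := by
  intro d hd hLP μ hμ ε hε
  have hl2 : 0 < Real.log 2 := Real.log_pos one_lt_two
  obtain ⟨CA, hCA, hA⟩ := hARB μ hμ
  obtain ⟨ε₁, hε₁⟩ : ∃ ε₁ : ℝ, ε₁ = min 1 (ε / (CA + 1)) := ⟨_, rfl⟩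
  have h10 : 0 < ε₁ := by
    rw [hε₁]
    exact lt_min one_pos (by positivity)
  have h11 : ε₁ ≤ 1 := by
    rw [hε₁]
    exact min_le_left _ _
  have h12 : CA * ε₁ ≤ ε := by
    have h1 : ε₁ ≤ ε / (CA + 1) := by
      rw [hε₁]
      exact min_le_right _ _
    have h2 : ε₁ * (CA + 1) ≤ ε := by
      rwa [le_div_iff₀ (by linarith)] at h1
    nlinarith
  obtain ⟨N, hN, θP, hθP, JP, hP⟩ := hLP (ε₁ * Real.log 2) (by positivity)
  obtain ⟨CD, hCD, hD⟩ := hDRV d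
  obtain ⟨CS, hCS, hS⟩ := hSPL d hd N hN
  obtain ⟨CI, hCI, hI⟩ := hSPI d N hN
  have t := Es.both (hALL d hd) (Es.both (hALS d hd) (Es.both (hAIL d hd).1
    (Es.both (hAIL d hd).2 (Es.both (Es.of_ev (hAIS d hd)) (Es.both (Es.of_ev (hAXI d hd).1)
      (Es.both (hAXI d hd).2 (Es.both (Es.of_ev (hAYY d)) (Es.both (hACO d hd)
        (Es.of_ev (hETA d hd))))))))))
  obtain ⟨θ₁, hθ₁, J₁, h1⟩ := t ε₁ h10
  obtain ⟨θ₂, hθ₂, J₂, h2⟩ := er_small CS hCS ε₁ h10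
  obtain ⟨θ₃, hθ₃, J₃, h3⟩ := er_small CI hCI ε₁ h10
  obtain ⟨θ₄, hθ₄, J₄, h4⟩ := er_small CD hCD (θP / Real.log 2) (by positivity)
  obtain ⟨θ₅, hθ₅, J₅, h5⟩ := er_small 1 zero_le_one ε₁ h10
  refine ⟨N, hN, min θ₁ (min θ₂ (min θ₃ (min θ₄ θ₅))) / 10, by positivity,
    max 1 (max JP (max J₁ (max J₂ (max J₃ (max J₄ J₅))))), ?_⟩
  intro J hJ G e τ he hG hGS
  simp only [max_le_iff] at hJ
  obtain ⟨j0, jP, j1, j2, j3, j4, j5⟩ := hJ
  obtain ⟨l, hl⟩ : ∃ l : ℝ, l = lm J := ⟨_, rfl⟩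
  have hl0 : 0 < l := by
    rw [hl]
    have : (0 : ℝ) < J := by exact_mod_cast j0
    exact mul_pos this hl2
  obtain ⟨F, hF, hFy, hFS⟩ := hCFG d J G e hG
  have he' : 10 * e ≤ min θ₁ (min θ₂ (min θ₃ (min θ₄ θ₅))) * lm J := by linarith
  rw [← hl] at he'
  have hmin : ∀ {x : ℝ}, min θ₁ (min θ₂ (min θ₃ (min θ₄ θ₅))) ≤ x → 10 * e ≤ x * lm J :=
    fun {x} hx => by
      rw [← hl]
      exact he'.trans (mul_le_mul_of_nonneg_right hx hl0.le)
  have k1 := h1 J j1 F G.L G.sb (10 * e) (hmin (min_le_left _ _)) hF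
  have k2 := h2 J j2 (10 * e) (hmin ((min_le_right _ _).trans (min_le_left _ _)))
  have k3 := h3 J j3 (10 * e)
    (hmin ((min_le_right _ _).trans ((min_le_right _ _).trans (min_le_left _ _))))
  have k4 := h4 J j4 (10 * e) (hmin ((min_le_right _ _).trans ((min_le_right _ _).trans
    ((min_le_right _ _).trans (min_le_left _ _)))))
  have k5 := h5 J j5 (10 * e) (hmin ((min_le_right _ _).trans ((min_le_right _ _).trans
    ((min_le_right _ _).trans (min_le_right _ _)))))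
  simp only [max_le_iff] at k1
  obtain ⟨q1, q2, q3, q4, q5, q6, q7, q8, q9, q10⟩ := k1
  have k4' : CD * er J (10 * e) ≤ θP * J := by
    refine k4.trans (le_of_eq ?_)
    unfold lm
    field_simp
  have her := one_le_er (J := J) hF.e0
  have hSL := hS J F G.L G.sb (10 * e) μ (τ * lm J) hF (hFS N μ _ hGS)
  have hSI := hI J F G.L G.sb (10 * e) μ (τ * lm J) hF (hFS N μ _ hGS)
  obtain ⟨TL, TI⟩ := hD J F G.L G.sb (10 * e) hF
  obtain ⟨xL, cL, hx1, hc1, hL1, hL2⟩ := lp_spr F.FL (a := aa) TL k4' hSL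
    (fun hK => hP J jP F.FL.Ω F.FL.ζ F.FL.p F.FL.Z F.FL.v F.FL.u F.FL.τ F.FL.isFam hK) hN
  obtain ⟨xI, cI, hx2, hc2, hI1, hI2⟩ := lp_spr F.FI (a := aa) TI k4' hSI
    (fun hK => hP J jP F.FI.Ω F.FI.ζ F.FI.p F.FI.Z F.FI.v F.FI.u F.FI.τ F.FI.isFam hK) hN
  obtain ⟨b1, b2, b3, b4, b5, -, -, -⟩ := hTRV.1 d J F G.L G.sb (10 * e) hF
  obtain ⟨-, -, g3, -⟩ := hTRV.2 d J G
  have hεJ : ε₁ * Real.log 2 * J = ε₁ * l := by
    rw [hl]
    unfold lm
    ring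
  rw [hεJ] at hL1 hI1
  have hkp : 0 < kp aa := by norm_num [kp, aa]
  have ha1 : 0 < aa - 1 := by norm_num [aa]
  have hμ0 : 0 < μ := lt_of_lt_of_le (by positivity) hμ
  rw [← hl] at q1 q2 q3 q4 q5 q6 q7 q8 q9 q10 k2 k3 k5 hL1 hL2 hI1 hI2 b2 b3 g3 ⊢
  -- scaled variables
  obtain ⟨L', hL'⟩ : ∃ x, G.L = x * l := ⟨G.L / l, by field_simp⟩
  obtain ⟨sb', hsb'⟩ : ∃ x, G.sb = x * l := ⟨G.sb / l, by field_simp⟩
  obtain ⟨y', hy'⟩ : ∃ x, F.y01 = x * l := ⟨F.y01 / l, by field_simp⟩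
  obtain ⟨xh', hxh'⟩ : ∃ x, F.xh = x * l := ⟨F.xh / l, by field_simp⟩
  obtain ⟨yh', hyh'⟩ : ∃ x, F.yh = x * l := ⟨F.yh / l, by field_simp⟩
  obtain ⟨mh', hmh'⟩ : ∃ x, F.mh = x * l := ⟨F.mh / l, by field_simp⟩
  obtain ⟨e1', he1'⟩ : ∃ x, F.et₁ = x * l := ⟨F.et₁ / l, by field_simp⟩
  obtain ⟨et', het'⟩ : ∃ x, F.et + F.y12 = x * l := ⟨(F.et + F.y12) / l, by field_simp⟩
  obtain ⟨qs', hqs'⟩ : ∃ x, F.qs = x * l := ⟨F.qs / l, by field_simp⟩
  obtain ⟨rh', hrh'⟩ : ∃ x, F.rh = x * l := ⟨F.rh / l, by field_simp⟩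
  obtain ⟨xi', hxi'⟩ : ∃ x, F.xi = x * l := ⟨F.xi / l, by field_simp⟩
  obtain ⟨ic', hic'⟩ : ∃ x, F.ic = x * l := ⟨F.ic / l, by field_simp⟩
  obtain ⟨iy', hiy'⟩ : ∃ x, F.iy = x * l := ⟨F.iy / l, by field_simp⟩
  obtain ⟨LL', hLL'⟩ : ∃ x, F.FL.L = x * l := ⟨F.FL.L / l, by field_simp⟩
  obtain ⟨SL', hSL'⟩ : ∃ x, F.FL.S = x * l := ⟨F.FL.S / l, by field_simp⟩
  obtain ⟨LI', hLI'⟩ : ∃ x, F.FI.L = x * l := ⟨F.FI.L / l, by field_simp⟩
  obtain ⟨SI', hSI'⟩ : ∃ x, F.FI.S = x * l := ⟨F.FI.S / l, by field_simp⟩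
  obtain ⟨hL, hhL⟩ : ∃ x, cL = x * l := ⟨cL / l, by field_simp⟩
  obtain ⟨hI', hhI⟩ : ∃ x, cI = x * l := ⟨cI / l, by field_simp⟩
  have hlog : Real.log 2 ≤ ε₁ * l := by
    have h6 : Real.log 2 ≤ 1 := by
      have := Real.log_two_lt_d9
      linarith
    linarith
  have hCIe : CI ≤ ε₁ * l := by
    have h6 : CI * 1 ≤ CI * er J (10 * e) := mul_le_mul_of_nonneg_left her hCI
    linarith
  have hfin := hA L' sb' y' xh' yh' mh' e1' et' qs' rh' xi' ic' iy' LL' SL' xL hL LI' SI' xI hI'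
    τ ε₁ h10.le h11
    (le_of_mul_le_mul_right (by linarith) hl0)
    (le_of_mul_le_mul_right (by linarith) hl0)
    (le_of_mul_le_mul_right (by linarith) hl0)
    (le_of_mul_le_mul_right (by linarith) hl0)
    (le_of_mul_le_mul_right (by linarith) hl0)
    (le_of_mul_le_mul_right (by linarith) hl0)
    (le_of_mul_le_mul_right (by linarith) hl0)
    (le_of_mul_le_mul_right (by linarith) hl0)
    (le_of_mul_le_mul_right (by linarith) hl0)
    (le_of_mul_le_mul_right (by linarith) hl0)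
    (le_of_mul_le_mul_right (by linarith) hl0)
    (le_of_mul_le_mul_right (by linarith) hl0)
    (le_of_mul_le_mul_right (by linarith) hl0)
    (le_of_mul_le_mul_right (by linarith) hl0)
    (le_of_mul_le_mul_right (by linarith) hl0)
    (le_of_mul_le_mul_right (by
      have : 0 ≤ kp aa * ((1 - xL) * l) := by
        have : 0 ≤ 1 - xL := by linarith
        positivity
      have : 0 ≤ (aa - 1) * cL := by positivity
      rw [hSL'] at hL1
      linarith) hl0)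
    (le_of_mul_le_mul_right (by
      have : 0 ≤ kp aa * ((1 - xI) * l) := by
        have : 0 ≤ 1 - xI := by linarith
        positivity
      have : 0 ≤ (aa - 1) * cI := by positivity
      rw [hSI'] at hI1
      linarith) hl0)
    (le_of_mul_le_mul_right (by rw [hSL', hhL] at hL1; linarith) hl0)
    (le_of_mul_le_mul_right (by linarith) hl0)
    (le_of_mul_le_mul_right (by linarith) hl0)
    (le_of_mul_le_mul_right (by rw [hSI', hhI] at hI1; linarith) hl0)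
    (le_of_mul_le_mul_right (by linarith) hl0)
    (le_of_mul_le_mul_right (by linarith) hl0)
  have hfin' := mul_le_mul_of_nonneg_right hfin hl0.le
  have hS' : sb' * l ≤ G.S + l := by linarith
  have m1 : max 0 (τ + 2 * (((4 * aa - 1) * sb' - 2 * aa * (L' + 2) + y') / (aa - 1))) * l ≤
      max 0 (τ * l + 2 * (((4 * aa - 1) * (G.S + l) - 2 * aa * (G.L + 2 * l) + G.Y) /
        (aa - 1))) := by
    rw [max_mul_of_nonneg _ _ hl0.le, zero_mul]
    refine max_le_max le_rfl ?_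
    have h6 : (((4 * aa - 1) * sb' - 2 * aa * (L' + 2) + y') / (aa - 1)) * l ≤
        ((4 * aa - 1) * (G.S + l) - 2 * aa * (G.L + 2 * l) + G.Y) / (aa - 1) := by
      rw [div_mul_eq_mul_div]
      refine div_le_div_of_nonneg_right ?_ ha1.le
      have h7 : (4 * aa - 1) * (sb' * l) ≤ (4 * aa - 1) * (G.S + l) :=
        mul_le_mul_of_nonneg_left hS' (by norm_num [aa])
      rw [hL', ← hFy, hy']
      linarith
    linarith
  have m2 : max 0 (τ + (2 * sb' - L' - 3 + y')) * l ≤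
      max 0 (τ * l + (2 * (G.S + l) - G.L - 3 * l + G.Y)) := by
    rw [max_mul_of_nonneg _ _ hl0.le, zero_mul]
    refine max_le_max le_rfl ?_
    rw [hL', ← hFy, hy']
    linarith
  have n1 := mul_le_mul_of_nonneg_left m1 (by
    have : 0 < aa := by norm_num [aa]
    positivity : 0 ≤ aa * kp aa / μ)
  have n2 := mul_le_mul_of_nonneg_left m2 (by positivity : 0 ≤ (aa - 1) * kp aa / μ)
  have n3 : PP aa * (sb' * l) ≤ PP aa * (G.S + l) :=
    mul_le_mul_of_nonneg_left hS' (by norm_num [PP, aa])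
  have n4 : CA * ε₁ * l ≤ ε * l := mul_le_mul_of_nonneg_right h12 hl0.le
  have n5 : DD aa * (G.L + 2 * l) = DD aa * (L' + 2) * l := by
    rw [hL']
    ring
  have n6 : kh aa * G.Y = kh aa * y' * l := by
    rw [← hFy, hy']
    ring
  rw [n5, n6]
  linarith

end Pool.KTH
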