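import Pool.Agent.H50.KTH.Alg

/-!
# KTH, SUM: the sum of the inequalities
-/

set_option autoImplicit false

namespace Pool.KTH

open Finset Real
open Pool.Agent.H49.Ent Pool.Agent.H32.Dense
open Pool.KTH.A50

/-- SUM: the sum of the inequalities. -/
theorem sum (h1 : ALLStmt) (h2 : ALSStmt) (h3 : AILStmt) (h4 : AISStmt) (h5 : AXIStmt)
    (h6 : AYYStmt) (h7 : ETAStmt) (h8 : TRVStmt) : SUMStmt := by
  intro d hd
  have a0 : (0 : ℝ) ≤ aa := by norm_num [aa]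
  have a1 : (0 : ℝ) ≤ aa - 1 := by norm_num [aa]
  have a2 : (0 : ℝ) ≤ 1 - aa / 2 := by norm_num [aa]
  have t1 := Es.smul (h1 d hd) a0
  have t2 := Es.smul (h2 d hd) (mul_nonneg a0 a0)
  have t3 := Es.smul (h3 d hd).1 a1
  have t4 := Es.smul (Es.of_ev (h4 d hd)) (mul_nonneg a0 a1)
  have t5 := Es.smul (Es.of_ev (h5 d hd).1) (mul_nonneg a1 (div_nonneg a0 zero_le_two))
  have t6 := Es.smul (h5 d hd).2 (mul_nonneg a1 (div_nonneg a0 zero_le_two))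
  have t7 := Es.smul (Es.of_ev (h6 d)) (mul_nonneg a1 a1)
  have t8 := Es.smul (Es.of_ev (h7 d hd)) (mul_nonneg a1 a2)
  have t := Es.add (Es.add (Es.add (Es.add (Es.add (Es.add (Es.add t1 t2) t3) t4) t5) t6) t7) t8
  refine Es.mono t fun J F L sb e h => ?_
  obtain ⟨b1, b2, b3, b4, -, -, -, -⟩ := h8.1 d J F L sb e h
  have c1 : 0 ≤ (2 * aa - 1) * (2 * sb - F.mh) := mul_nonneg (by norm_num [aa]) (by linarith)
  have c2 : 0 ≤ (aa - 1) * (aa - 1) * (lm J - F.rh) := mul_nonneg (mul_nonneg a1 a1) (by linarith)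
  have c3 : 0 ≤ aa * (aa - 1) * F.et₁ := mul_nonneg (mul_nonneg a0 a1) b4
  have c4 : 0 ≤ (aa - 1) * (1 - aa / 2) * (lm J - F.qs) :=
    mul_nonneg (mul_nonneg a1 a2) (by linarith)
  simp only [DD, PP, kh]
  have key : (aa * (2 * L + 4 * lm J - sb - 2 * F.y01 - F.xh - F.et₁ - F.FL.L) +
      aa * aa * (F.FL.S - (F.mh - F.xh - F.et₁ - F.y01)) +
      (aa - 1) * (3 * L + 6 * lm J - 2 * sb - F.qs - F.y01 - F.y12 - F.yh - F.et - F.FI.L) +
      aa * (aa - 1) * (F.FI.S - (sb + F.xh - F.yh - F.xi)) +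
      (aa - 1) * (aa / 2) * (F.qs - F.xi) + (aa - 1) * (aa / 2) * (F.et + F.y12 - F.xi) +
      (aa - 1) * (aa - 1) * (F.mh + L + 2 * lm J - 2 * sb - F.rh - F.yh) +
      (aa - 1) * (1 - aa / 2) * (F.et + F.y12 - lm J)) =
      (aa ^ 2 + 3 * aa - 2) * (L + 2 * lm J) - ((3 * aa ^ 2 + 2 * aa - 2) * sb +
        (aa - 1) * lm J + (3 * aa - aa ^ 2 - 1) * F.y01 - aa * (aa * F.FL.S - F.FL.L) -
        (aa - 1) * (aa * F.FI.S - F.FI.L)) +
      (2 * aa - 1) * (2 * sb - F.mh) + (aa - 1) * (aa - 1) * (lm J - F.rh) +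
      aa * (aa - 1) * F.et₁ + (aa - 1) * (1 - aa / 2) * (lm J - F.qs) := by
    ring
  linarith

end Pool.KTH
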