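import Pool.Agent.H12.KTH.Stmts

/-!
# KTH: algebra of the error terms
-/

set_option autoImplicit false

namespace Pool.KTH.A50

open Finset Real Filter
open Pool.Agent.H49.Ent Pool.Agent.H32.Dense

variable {d : ℕ}

theorem lm_nonneg (J : ℕ) : 0 ≤ lm J := mul_nonneg (Nat.cast_nonneg _) (Real.log_pos one_lt_two).le

theorem er_nonneg {J : ℕ} {e : ℝ} (he : 0 ≤ e) : 0 ≤ er J e := by
  have h1 : 0 ≤ Real.log ((J : ℝ) + 2) := Real.log_nonneg (by
    have : (0 : ℝ) ≤ J := Nat.cast_nonneg _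
    linarith)
  unfold er
  linarith

theorem er_small (C : ℝ) (hC : 0 ≤ C) (ε : ℝ) (hε : 0 < ε) : ∃ θ : ℝ, 0 < θ ∧ ∃ J₀ : ℕ,
    ∀ J : ℕ, J₀ ≤ J → ∀ e : ℝ, e ≤ θ * lm J → C * er J e ≤ ε * lm J := by
  have hl2 : 0 < Real.log 2 := Real.log_pos one_lt_two
  refine ⟨ε / (2 * (C + 1)), by positivity, ?_⟩
  have hc : 0 < ε * Real.log 2 / (4 * (C + 1)) := by positivity
  have h1 : Tendsto (fun J : ℕ => (J : ℝ) + 2) atTop atTop :=
    tendsto_atTop_add_const_right _ _ tendsto_natCast_atTop_atTop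
  have h2 := (Real.isLittleO_log_id_atTop.comp_tendsto h1).def hc
  obtain ⟨J₁, hJ₁⟩ := Filter.eventually_atTop.1 h2
  obtain ⟨J₂, hJ₂⟩ := exists_nat_ge ((C + 2 * (C * (ε * Real.log 2 / (4 * (C + 1))))) /
    (ε / 4 * Real.log 2))
  refine ⟨max J₁ J₂, fun J hJ e he => ?_⟩
  have h3 := hJ₁ J (le_trans (le_max_left _ _) hJ)
  have hJ0 : (0 : ℝ) ≤ J := Nat.cast_nonneg _
  have h4 : Real.log ((J : ℝ) + 2) ≤ ε * Real.log 2 / (4 * (C + 1)) * ((J : ℝ) + 2) := by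
    have h5 : ‖Real.log ((J : ℝ) + 2)‖ ≤ ε * Real.log 2 / (4 * (C + 1)) * ‖(J : ℝ) + 2‖ := h3
    rw [Real.norm_eq_abs, Real.norm_eq_abs, abs_of_nonneg (by linarith : (0 : ℝ) ≤ (J : ℝ) + 2)]
      at h5
    exact (le_abs_self _).trans h5
  have h6 : (C + 2 * (C * (ε * Real.log 2 / (4 * (C + 1))))) ≤ ε / 4 * Real.log 2 * J := by
    have h7 : (J₂ : ℝ) ≤ J := by exact_mod_cast le_trans (le_max_right _ _) hJ
    have h8 := hJ₂.trans h7
    rw [div_le_iff₀ (by positivity)] at h8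
    linarith
  have h9 : C * (ε * Real.log 2 / (4 * (C + 1))) ≤ ε / 4 * Real.log 2 := by
    have h10 : C * (ε * Real.log 2 / (4 * (C + 1))) = ε / 4 * Real.log 2 * (C / (C + 1)) := by
      field_simp
    rw [h10]
    have h11 : C / (C + 1) ≤ 1 := by
      rw [div_le_one (by linarith)]
      linarith
    have h12 : 0 ≤ ε / 4 * Real.log 2 := by positivity
    nlinarith
  have h13 : C * (ε / (2 * (C + 1)) * lm J) ≤ ε / 2 * lm J := by
    have h14 : C * (ε / (2 * (C + 1)) * lm J) = ε / 2 * lm J * (C / (C + 1)) := by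
      field_simp
    rw [h14]
    have h11 : C / (C + 1) ≤ 1 := by
      rw [div_le_one (by linarith)]
      linarith
    have h12 : 0 ≤ ε / 2 * lm J := mul_nonneg (by linarith) (lm_nonneg J)
    nlinarith
  have h15 : C * Real.log ((J : ℝ) + 2) ≤
      C * (ε * Real.log 2 / (4 * (C + 1))) * ((J : ℝ) + 2) := by
    have := mul_le_mul_of_nonneg_left h4 hC
    linarith
  have h16 : C * (ε * Real.log 2 / (4 * (C + 1))) * J ≤ ε / 4 * Real.log 2 * J :=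
    mul_le_mul_of_nonneg_right h9 hJ0
  have h17 : C * e ≤ C * (ε / (2 * (C + 1)) * lm J) := mul_le_mul_of_nonneg_left he hC
  have h18 : lm J = J * Real.log 2 := rfl
  unfold er
  rw [h18] at h13 h17 ⊢
  nlinarith

theorem Ev.mono {f g : ∀ J : ℕ, Cf d J → ℝ → ℝ → ℝ} (h : Ev d g)
    (hfg : ∀ (J : ℕ) (F : Cf d J) (L sb e : ℝ), F.Ok L sb e → f J F L sb ≤ g J F L sb) :
    Ev d f := by
  obtain ⟨C, hC, hg⟩ := h
  exact ⟨C, hC, fun J F L sb e h => (hfg J F L sb e h).trans (hg J F L sb e h)⟩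

theorem Ev.add {f g : ∀ J : ℕ, Cf d J → ℝ → ℝ → ℝ} (h : Ev d f) (h' : Ev d g) :
    Ev d (fun J F L sb => f J F L sb + g J F L sb) := by
  obtain ⟨C, hC, hf⟩ := h
  obtain ⟨C', hC', hg⟩ := h'
  refine ⟨C + C', by positivity, fun J F L sb e h => ?_⟩
  have h1 := hf J F L sb e h
  have h2 := hg J F L sb e h
  show f J F L sb + g J F L sb ≤ (C + C') * er J e
  linarith

theorem Ev.smul {f : ∀ J : ℕ, Cf d J → ℝ → ℝ → ℝ} (h : Ev d f) {c : ℝ} (hc : 0 ≤ c) :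
    Ev d (fun J F L sb => c * f J F L sb) := by
  obtain ⟨C, hC, hf⟩ := h
  refine ⟨c * C, by positivity, fun J F L sb e h => ?_⟩
  have h1 := mul_le_mul_of_nonneg_left (hf J F L sb e h) hc
  show c * f J F L sb ≤ c * C * er J e
  linarith

/-- The deficit itself. -/
theorem Ev.of_le {f : ∀ J : ℕ, Cf d J → ℝ → ℝ → ℝ} (C : ℝ) (hC : 0 ≤ C)
    (h : ∀ (J : ℕ) (F : Cf d J) (L sb e : ℝ), F.Ok L sb e → f J F L sb ≤ C * (e + 1)) :
    Ev d f := by
  refine ⟨C, hC, fun J F L sb e h' => (h J F L sb e h').trans ?_⟩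
  refine mul_le_mul_of_nonneg_left ?_ hC
  have h1 : 0 ≤ Real.log ((J : ℝ) + 2) := Real.log_nonneg (by
    have : (0 : ℝ) ≤ J := Nat.cast_nonneg _
    linarith)
  unfold er
  linarith

theorem Es.of_ev {f : ∀ J : ℕ, Cf d J → ℝ → ℝ → ℝ} (h : Ev d f) : Es d f := by
  obtain ⟨C, hC, hf⟩ := h
  intro ε hε
  obtain ⟨θ, hθ, J₀, h1⟩ := er_small C hC ε hε
  exact ⟨θ, hθ, J₀, fun J hJ F L sb e he h => (hf J F L sb e h).trans (h1 J hJ e he)⟩

theorem Es.mono {f g : ∀ J : ℕ, Cf d J → ℝ → ℝ → ℝ} (h : Es d g)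
    (hfg : ∀ (J : ℕ) (F : Cf d J) (L sb e : ℝ), F.Ok L sb e → f J F L sb ≤ g J F L sb) :
    Es d f := by
  intro ε hε
  obtain ⟨θ, hθ, J₀, h1⟩ := h ε hε
  exact ⟨θ, hθ, J₀, fun J hJ F L sb e he h => (hfg J F L sb e h).trans (h1 J hJ F L sb e he h)⟩

theorem Es.add {f g : ∀ J : ℕ, Cf d J → ℝ → ℝ → ℝ} (h : Es d f) (h' : Es d g) :
    Es d (fun J F L sb => f J F L sb + g J F L sb) := by
  intro ε hε
  obtain ⟨θ, hθ, J₀, h1⟩ := h (ε / 2) (by linarith)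
  obtain ⟨θ', hθ', J₀', h2⟩ := h' (ε / 2) (by linarith)
  refine ⟨min θ θ', lt_min hθ hθ', max J₀ J₀', fun J hJ F L sb e he h => ?_⟩
  have hl := lm_nonneg J
  have h3 := h1 J (le_trans (le_max_left _ _) hJ) F L sb e
    (he.trans (mul_le_mul_of_nonneg_right (min_le_left _ _) hl)) h
  have h4 := h2 J (le_trans (le_max_right _ _) hJ) F L sb e
    (he.trans (mul_le_mul_of_nonneg_right (min_le_right _ _) hl)) h
  show f J F L sb + g J F L sb ≤ ε * lm J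
  linarith

theorem Es.smul {f : ∀ J : ℕ, Cf d J → ℝ → ℝ → ℝ} (h : Es d f) {c : ℝ} (hc : 0 ≤ c) :
    Es d (fun J F L sb => c * f J F L sb) := by
  intro ε hε
  obtain ⟨θ, hθ, J₀, h1⟩ := h (ε / (c + 1)) (by positivity)
  refine ⟨θ, hθ, J₀, fun J hJ F L sb e he h => ?_⟩
  have hl := lm_nonneg J
  have h3 := mul_le_mul_of_nonneg_left (h1 J hJ F L sb e he h) hc
  have h4 : c * (ε / (c + 1) * lm J) ≤ ε * lm J := by
    have h5 : c * (ε / (c + 1) * lm J) = ε * lm J * (c / (c + 1)) := by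
      field_simp
    rw [h5]
    have h6 : c / (c + 1) ≤ 1 := by
      rw [div_le_one (by linarith)]
      linarith
    have h7 : 0 ≤ ε * lm J := mul_nonneg hε.le hl
    nlinarith
  exact h3.trans h4

end Pool.KTH.A50
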